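import Mathlib
import Pool.Agent.H759R2.Kad.Props
import Pool.Agent.H759R2.Kad.Props2

/-! Task 04 of the second Kadison project: entries (helper859). -/

open scoped ComplexOrder InnerProductSpace ComplexConjugate
open Finset

noncomputable section

namespace H759R2.Kad

universe u v

namespace Entry2

variable {A : Type u} [CStarAlgebra A]

theorem norm_one_le : ‖(1 : A)‖ ≤ 1 := by
  have h : ‖star (1 : A) * 1‖ = ‖(1 : A)‖ * ‖(1 : A)‖ := CStarRing.norm_star_mul_self
  rw [star_one, mul_one] at h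
  nlinarith [norm_nonneg (1 : A)]

theorem norm_unitary_le (g : unitary A) : ‖(g : A)‖ ≤ 1 := by
  have h : ‖star (g : A) * g‖ = ‖(g : A)‖ * ‖(g : A)‖ := CStarRing.norm_star_mul_self
  rw [Unitary.coe_star_mul_self] at h
  have h1 := norm_one_le (A := A)
  nlinarith [norm_nonneg (g : A)]

end Entry2

open Entry2

theorem prove2_entry (h1 : T2_col.{u, v}) (h2 : T2_ecol.{u, v}) : T2_entry.{u, v} := by
  intro A _ _ _ H _ _ _ w τ hw hτ hdix c ε hc0 hc1 hε hwb hdb ι _ _ x hx i j u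
  have hx1 : star x * x = 1 := (Unitary.mem_iff.1 hx).1
  have hent : ∀ i j, ∑ b, star (x b i) * x b j = if i = j then 1 else 0 := by
    intro i j
    have := congrFun (congrFun hx1 i) j
    rw [CStarMatrix.mul_apply] at this
    simpa [CStarMatrix.star_apply, CStarMatrix.one_apply] using this
  have hdixfor : HasDixFor τ w c := by
    intro a ha e he
    obtain ⟨N, g, hg⟩ := hdix a ha e he
    refine ⟨N, g, fun k => ⟨?_, ?_⟩, hg⟩
    · refine (hwb _).trans ?_
      have := norm_unitary_le (g k)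
      nlinarith
    · refine (hwb _).trans ?_
      have := norm_unitary_le (g k)
      rw [norm_star]
      nlinarith
  have hampinj : ∀ (b : ι), amp w ι x (inj j u) b = w (x b j) u := by
    intro b
    rw [amp_apply, Finset.sum_eq_single j]
    · rw [inj_apply, if_pos rfl]
    · intro k _ hk
      rw [inj_apply, if_neg hk, map_zero]
    · simp
  have hstar : star (amp w ι x) = opMat fun i j => star (w (x j i)) := by
    rw [Kad.amp, LinearMap.coe_mk, AddHom.coe_mk, opMat_star]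
  have hkey : (star (amp w ι x) * amp w ι x - 1) (inj j u) i =
      ∑ b, dmap w (star (x b i)) (w (x b j) u) := by
    have e1 : (star (amp w ι x) * amp w ι x - 1) (inj j u) i =
        ∑ b, (star (w (x b i))) (w (x b j) u) - inj j u i := by
      rw [sub_apply, mul_apply_eq_comp, hstar, PiLp.sub_apply, opMat_apply]
      simp only [hampinj]
      rfl
    have e2 : ∀ b, dmap w (star (x b i)) (w (x b j) u) =
        (star (w (x b i))) (w (x b j) u) - w (star (x b i) * x b j) u := by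
      intro b
      rw [hw.mul]
      simp [dmap]
    rw [e1, Finset.sum_congr rfl fun b _ => e2 b, Finset.sum_sub_distrib]
    congr 1
    rw [← _root_.sum_apply, ← map_sum, hent i j, inj_apply]
    split_ifs
    · rw [hw.one]; rfl
    · simp
  rw [hkey]
  have h8 := (h2 A H w τ hw hτ hdix c ε hc0 hc1 hε hwb hdb ι (fun b => star (x b i))).2
    (fun b => w (x b j) u)
  simp only [star_star, hent i i, if_true] at h8
  have h9 := (h1 A H w τ hw hτ c c hc0 hc0 hdixfor hwb ι (fun b => x b j)).1 u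
  simp only [hent j j, if_true] at h9
  have h10 := norm_one_le (A := A)
  have h11 : ∑ b, ‖w (x b j) u‖ ^ 2 ≤ 6 * c ^ 2 * c ^ 2 * ‖u‖ ^ 2 := by
    refine h9.trans ?_
    calc 6 * c ^ 2 * c ^ 2 * ‖(1 : A)‖ * ‖u‖ ^ 2 ≤ 6 * c ^ 2 * c ^ 2 * 1 * ‖u‖ ^ 2 := by gcongr
      _ = _ := by ring
  have hc4 : c ^ 2 * c ^ 2 ≤ 3 / 2 := by
    have : c ^ 2 ≤ (11 / 10) ^ 2 := by gcongr
    nlinarith [sq_nonneg c]
  have h12 : ‖∑ b, dmap w (star (x b i)) (w (x b j) u)‖ ^ 2 ≤ (18 * ε * ‖u‖) ^ 2 := by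
    refine h8.trans ?_
    calc 36 * ε ^ 2 * ‖(1 : A)‖ * ∑ b, ‖w (x b j) u‖ ^ 2
        ≤ 36 * ε ^ 2 * 1 * (6 * c ^ 2 * c ^ 2 * ‖u‖ ^ 2) := by gcongr
      _ = 216 * ε ^ 2 * ‖u‖ ^ 2 * (c ^ 2 * c ^ 2) := by ring
      _ ≤ 216 * ε ^ 2 * ‖u‖ ^ 2 * (3 / 2) := by gcongr
      _ = (18 * ε * ‖u‖) ^ 2 := by ring
  exact (sq_le_sq₀ (norm_nonneg _) (by positivity)).1 h12

end H759R2.Kad
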